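import Mathlib
import Pool.Agent.H23.HSC2

set_option autoImplicit false

namespace Pool.Agent.Results.MP_d44404_lc.Decidable

open Pool.Agent.H23.HSC

/-- The logic of the Heyting algebra `A`. -/
def Log (A : Type) [HeytingAlgebra A] : Set Fm := {φ | ∀ v : ℕ → A, ev v φ = ⊤}

/-- Derivability from `L ∪ Γ` by modus ponens alone. -/
inductive MP (L Γ : Set Fm) : Fm → Prop
  | ax {φ : Fm} : φ ∈ L ∪ Γ → MP L Γ φ
  | mp {φ ψ : Fm} : MP L Γ φ → MP L Γ (φ.imp ψ) → MP L Γ ψ

/-- The structural completion: the least deductive system containing `R` and all rules admissible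
in `R`. -/
def Compl (R : Set Fm → Fm → Prop) (Γ : Set Fm) (φ : Fm) : Prop :=
  ∀ R', DS R' → (∀ Δ ψ, R Δ ψ → R' Δ ψ) → (∀ Δ ψ, Δ.Finite → Adm R Δ ψ → R' Δ ψ) → R' Γ φ

theorem mp_iff {A : Type} [HeytingAlgebra A] (φ : Fm) : MP (Log A) ∅ φ ↔ φ ∈ Log A :=
  ⟨fun h => by
    induction h with
    | ax h => simpa using h
    | mp _ _ i j => exact fun v => by simpa [ev, i v] using j v, fun h => .ax (.inl h)⟩

theorem result : ∃ f : Code → Bool, Computable f ∧
    ∀ (A : Type) [HeytingAlgebra A] (n : ℕ) (e : A ≃ Fin n),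
      f (code e) = true ↔ IsHSC (Compl (MP (Log A))) := by
  refine ⟨fun t => (fun n => crit t n (n ^ n ^ n) ((List.range (n ^ n ^ n ^ n)).filter
    fun a => al (n ^ n ^ n) fun i => Nat.blt i n || dig n a i == t.2.2.2.1)) t.1.length,
    (crit_pr (by fun_prop) (by fun_prop) (by fun_prop) (by fun_prop)).to_comp, fun A _ n e => ?_⟩
  have := Finite.of_equiv _ e.symm
  have l : (code e).1.length = n := by simp [code, tab]
  have m : n ≤ n ^ n ^ n := Nat.le_self_pow (pow_pos (npos e) _).ne' _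
  have hW : vl (n ^ n ^ n) e '' {a | a ∈ (List.range (n ^ n ^ n ^ n)).filter fun a =>
      al (n ^ n ^ n) fun i => Nat.blt i n || dig n a i == (code e).2.2.2.1} =
      {w | ∀ i, n ≤ i → w i = ⊥} := by
    ext w
    simp only [List.mem_filter, List.mem_range, al_iff, Bool.or_eq_true, Nat.blt_eq, beq_iff_eq,
      code, Set.mem_image, Set.mem_ofPred_eq]
    refine ⟨?_, fun h => ?_⟩
    · rintro ⟨a, ⟨-, h⟩, rfl⟩ i j
      unfold vl
      split_ifs with g
      exacts [by simp [(h i g).resolve_left j.not_gt], rfl]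
    obtain ⟨a, a1, a2⟩ := exists_dig n (n ^ n ^ n) (fun i => e (w i)) fun _ _ => Fin.is_lt _
    refine ⟨a, ⟨a1, fun i j => (lt_or_ge i n).imp_right fun k => by rw [a2 i j, h i k]⟩,
      funext fun i => ?_⟩
    unfold vl
    split_ifs with g
    · simp [a2 i g]
    · exact (h i (m.trans (not_lt.1 g))).symm
  have b : ∀ Γ φ, B {w : ℕ → A | ∀ i, n ≤ i → w i = ⊥} Γ φ ↔ Adm (MP (Log A)) Γ φ := fun Γ φ => by
    simp only [B, Z, Adm, mp_iff]
    simp only [Log, Set.mem_ofPred_eq]
    refine ⟨fun h s g v => ?_, fun h s g w k => ?_⟩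
    · have := h (fun i => subst (fun j => .var (e (v j))) (s i))
        (fun γ i w _ => by rw [← subst_subst, ev_subst, g γ i])
        (fun i => if h : i < n then e.symm ⟨i, h⟩ else ⊥) fun i j => dif_neg j.not_gt
      rw [← subst_subst, ev_subst] at this
      simpa [ev] using this
    have := h (fun i => subst (rho n) (s i)) (fun γ i v => by
      rw [← subst_subst, ev_subst, g γ i _ fun i j => by simp [rho, j.not_gt, ev]]) w
    rw [← subst_subst, ev_subst] at this
    convert this with i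
    unfold rho
    split_ifs with j
    exacts [rfl, k i (not_lt.1 j)]
  have c : Nat.card {w : ℕ → A | ∀ i, n ≤ i → w i = ⊥} ≤ n ^ n := by
    simpa [Nat.card_fun, Nat.card_congr e] using Nat.card_le_card_of_injective
      (fun (w : {w : ℕ → A | ∀ i, n ≤ i → w i = ⊥}) (i : Fin n) => w.1 i) fun v w h =>
      Subtype.ext (funext fun i => (lt_or_ge i n).elim (fun j => congrFun h ⟨i, j⟩)
        fun j => (v.2 i j).trans (w.2 i j).symm)
  simp only [l]
  rw [crit_code (by simp +contextual), ← crit_iff ((List.finite_toSet _).image _) (by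
    rw [hW, Nat.card_congr e, Nat.card_fin]; exact Nat.pow_le_pow_right (npos e) c), hW]
  simp only [b]
  refine ⟨fun h R d g => h R d fun Γ φ i j => g Γ φ fun R _ _ k => k _ _ i j,
    fun h R d g => h R d fun Γ φ k => k R d (fun Δ ψ i => ?_) g⟩
  induction i with
  | ax i => exact i.elim (fun i => d.cut _ ∅ _ (by simp) (g _ _ (by simp) fun s _ =>
      .ax (.inl fun v => (ev_subst _ _ _).trans (i _)))) (d.refl _ _)
  | @mp φ ψ _ _ i j => exact d.cut _ {φ, φ.imp ψ} _ (by simp [i, j]) (g _ _ (by simp) fun s k =>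
      .mp (k φ (by simp)) (k (φ.imp ψ) (by simp)))

end Pool.Agent.Results.MP_d44404_lc.Decidable
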